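import Pool.Agent.MP_fcd29e_an.H31.Spec3

/-!
From the estimate near boundary points to the estimate on compact sets.
-/

set_option autoImplicit false

open MeasureTheory Complex Set Filter Topology Metric Pool.Agent.MP_fcd29e_an.H81
  Pool.Agent.MP_fcd29e_an.H31
open scoped ContDiff ComplexConjugate ENNReal NNReal Manifold

namespace Pool.Agent.MP_fcd29e_an.H63

namespace HGA

variable {N : ℕ}

theorem cs {X : Type} [MeasurableSpace X] {μ : Measure X} {f g : X → ℂ} (hf : MemLp f 2 μ)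
    (hg : MemLp g 2 μ) :
    ‖∫ x, f x * g x ∂μ‖ ^ 2 ≤ (∫ x, ‖f x‖ ^ 2 ∂μ) * ∫ x, ‖g x‖ ^ 2 ∂μ := by
  have h2 : ENNReal.ofReal 2 = 2 := by simp
  have h := integral_mul_norm_le_Lp_mul_Lq (μ := μ) (f := f) (g := g) Real.HolderConjugate.two_two
    (by rwa [h2]) (by rwa [h2])
  have h1 : ‖∫ x, f x * g x ∂μ‖ ≤ ∫ x, ‖f x‖ * ‖g x‖ ∂μ := by
    simpa only [norm_mul] using norm_integral_le_integral_norm (μ := μ) fun x => f x * g x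
  simp only [Real.rpow_two, ← Real.sqrt_eq_rpow] at h
  have ha : 0 ≤ ∫ x, ‖f x‖ ^ 2 ∂μ := integral_nonneg fun _ => sq_nonneg _
  have hb : 0 ≤ ∫ x, ‖g x‖ ^ 2 ∂μ := integral_nonneg fun _ => sq_nonneg _
  calc _ ≤ (√(∫ x, ‖f x‖ ^ 2 ∂μ) * √(∫ x, ‖g x‖ ^ 2 ∂μ)) ^ 2 :=
        pow_le_pow_left₀ (norm_nonneg _) (h1.trans h) 2
    _ = _ := by rw [mul_pow, Real.sq_sqrt ha, Real.sq_sqrt hb]

/-- The functional `T` is bounded by the weighted norm on functions supported in `K`. -/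
def Bd (ρ : E N → ℝ) (s : ℝ) (T : (E N → ℂ) → ℂ) (K : Set (E N)) : Prop :=
  ∃ C : ℝ≥0, ∀ ψ, Tst ψ → tsupport ψ ⊆ K → ENNReal.ofReal (‖T ψ‖ ^ 2) ≤ C * WI ρ s ψ

theorem Bd.add {ρ : E N → ℝ} {s : ℝ} {T T₁ T₂ : (E N → ℂ) → ℂ} {K : Set (E N)}
    (h₁ : Bd ρ s T₁ K) (h₂ : Bd ρ s T₂ K)
    (h : ∀ ψ, Tst ψ → tsupport ψ ⊆ K → T ψ = T₁ ψ + T₂ ψ) : Bd ρ s T K := by
  obtain ⟨C₁, h₁⟩ := h₁
  obtain ⟨C₂, h₂⟩ := h₂
  refine ⟨2 * C₁ + 2 * C₂, fun ψ hψ hK => ?_⟩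
  have e : ‖T ψ‖ ^ 2 ≤ 2 * ‖T₁ ψ‖ ^ 2 + 2 * ‖T₂ ψ‖ ^ 2 := by
    rw [h ψ hψ hK]
    have h3 := pow_le_pow_left₀ (norm_nonneg _) (norm_add_le (T₁ ψ) (T₂ ψ)) 2
    nlinarith [sq_nonneg (‖T₁ ψ‖ - ‖T₂ ψ‖)]
  calc _ ≤ ENNReal.ofReal (2 * ‖T₁ ψ‖ ^ 2 + 2 * ‖T₂ ψ‖ ^ 2) := ENNReal.ofReal_le_ofReal e
    _ = 2 * ENNReal.ofReal (‖T₁ ψ‖ ^ 2) + 2 * ENNReal.ofReal (‖T₂ ψ‖ ^ 2) := by
        rw [ENNReal.ofReal_add (by positivity) (by positivity), ENNReal.ofReal_mul (by norm_num),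
          ENNReal.ofReal_mul (by norm_num)]
        simp
    _ ≤ 2 * (C₁ * WI ρ s ψ) + 2 * (C₂ * WI ρ s ψ) := by
        gcongr
        exacts [h₁ ψ hψ hK, h₂ ψ hψ hK]
    _ = _ := by push_cast; ring

theorem Bd.zero {ρ : E N → ℝ} {s : ℝ} {T : (E N → ℂ) → ℂ} {K : Set (E N)}
    (h : ∀ ψ, Tst ψ → tsupport ψ ⊆ K → T ψ = 0) : Bd ρ s T K :=
  ⟨0, fun ψ hψ hK => by simp [h ψ hψ hK]⟩

theorem Bd.sum {ρ : E N → ℝ} {s : ℝ} {ι : Type} (t : Finset ι) {T : ι → (E N → ℂ) → ℂ}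
    {K : Set (E N)} (h : ∀ i, Bd ρ s (T i) K) : Bd ρ s (fun ψ => ∑ i ∈ t, T i ψ) K := by
  classical
  induction t using Finset.induction_on with
  | empty => exact Bd.zero fun _ _ _ => by simp
  | insert i t hi ih => exact (h i).add ih fun _ _ _ => Finset.sum_insert hi

theorem WI_mul {ρ : E N → ℝ} (hO : IsOpen (Op ρ)) (s : ℝ) {a : E N → ℂ} (ha : ContDiff ℝ ∞ a)
    {B : ℝ} (hB : ∀ z, ‖a z‖ ≤ B ∧ ‖fderiv ℝ a z‖ ≤ B) {ψ : E N → ℂ} (hψ : Tst ψ) :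
    WI ρ s (fun z => a z * ψ z) ≤ (3 * B ^ 2).toNNReal * WI ρ s ψ := by
  unfold WI
  rw [← lintegral_const_mul' _ _ ENNReal.coe_ne_top]
  refine setLIntegral_mono' hO.measurableSet fun z hz => ?_
  have h0 : 0 ≤ ρ z ^ (2 * s) := Real.rpow_nonneg hz.2.le _
  have hB0 : 0 ≤ B := (norm_nonneg _).trans (hB z).1
  change _ ≤ ENNReal.ofReal (3 * B ^ 2) * _
  rw [← ENNReal.ofReal_mul (by positivity)]
  refine ENNReal.ofReal_le_ofReal ?_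
  have hd : fderiv ℝ (fun z => a z * ψ z) z = a z • fderiv ℝ ψ z + ψ z • fderiv ℝ a z :=
    fderiv_fun_mul (ha.differentiable (by simp) z) (hψ.1.differentiable (by simp) z)
  have h1 : ‖fderiv ℝ (fun z => a z * ψ z) z‖ ≤ B * ‖fderiv ℝ ψ z‖ + B * ‖ψ z‖ := by
    rw [hd]
    refine (norm_add_le _ _).trans (add_le_add ?_ ?_)
    · rw [norm_smul]; gcongr; exact (hB z).1
    · rw [norm_smul, mul_comm]; gcongr; exact (hB z).2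
  have h2 : ‖a z * ψ z‖ ≤ B * ‖ψ z‖ := by
    rw [norm_mul]; gcongr; exact (hB z).1
  have h3 := pow_le_pow_left₀ (norm_nonneg _) h1 2
  have h4 := pow_le_pow_left₀ (norm_nonneg _) h2 2
  have h5 : ‖a z * ψ z‖ ^ 2 + ‖fderiv ℝ (fun z => a z * ψ z) z‖ ^ 2 ≤
      3 * B ^ 2 * (‖ψ z‖ ^ 2 + ‖fderiv ℝ ψ z‖ ^ 2) := by
    nlinarith [sq_nonneg (B * ‖fderiv ℝ ψ z‖ - B * ‖ψ z‖), sq_nonneg (B * ‖fderiv ℝ ψ z‖)]
  calc _ ≤ ρ z ^ (2 * s) * (3 * B ^ 2 * (‖ψ z‖ ^ 2 + ‖fderiv ℝ ψ z‖ ^ 2)) := by gcongr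
    _ = _ := by ring

theorem tst_mul {a ψ : E N → ℂ} (ha : ContDiff ℝ ∞ a) (hψ : Tst ψ) : Tst fun z => a z * ψ z :=
  ⟨ha.mul hψ.1, hψ.2.mul_left⟩

theorem Bd.mul {ρ : E N → ℝ} (hO : IsOpen (Op ρ)) {s : ℝ} {T : (E N → ℂ) → ℂ}
    {K K' : Set (E N)} (h : Bd ρ s T K') {a : E N → ℂ} (ha : ContDiff ℝ ∞ a)
    {B : ℝ} (hB : ∀ z, ‖a z‖ ≤ B ∧ ‖fderiv ℝ a z‖ ≤ B)
    (hK : ∀ ψ : E N → ℂ, tsupport ψ ⊆ K → tsupport (fun z => a z * ψ z) ⊆ K') :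
    Bd ρ s (fun ψ => T fun z => a z * ψ z) K := by
  obtain ⟨C, h⟩ := h
  refine ⟨C * (3 * B ^ 2).toNNReal, fun ψ hψ hs => ?_⟩
  refine (h _ (tst_mul ha hψ) (hK ψ hs)).trans ?_
  rw [ENNReal.coe_mul, mul_assoc]
  gcongr
  exact WI_mul hO s ha hB hψ

theorem norm_dzb (j : Fin N) (f : E N → ℂ) (z : E N) : ‖dzb j f z‖ ≤ ‖fderiv ℝ f z‖ := by
  have h1 : ‖(ee j : E N)‖ = 1 := by simp [ee]
  have h2 := (fderiv ℝ f z).le_opNorm (ee j)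
  have h3 := (fderiv ℝ f z).le_opNorm (I • ee j)
  rw [norm_smul, norm_I, h1] at h3
  rw [h1] at h2
  have h4 := norm_add_le (fderiv ℝ f z (ee j)) (I * fderiv ℝ f z (I • ee j))
  rw [norm_mul, norm_I] at h4
  rw [dzb, norm_div, Complex.norm_ofNat]
  linarith

theorem dzb_zero (j : Fin N) {f : E N → ℂ} {z : E N} (hz : z ∉ tsupport f) : dzb j f z = 0 := by
  have := norm_dzb j f z
  rw [fderiv_of_notMem_tsupport ℝ hz, norm_zero] at this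
  exact norm_le_zero_iff.1 this

theorem inner_bd (L : Lv2) {ρ : E N → ℝ} (hρ : Dom ρ) {s : ℝ} (hs : 0 < s) {g : E N → ℂ}
    (hg : L2 (E0 N) g) (l : Fin N) {K : Set (E N)} (hK : IsCompact K) (hO : K ⊆ Op ρ) :
    Bd ρ s (fun ψ => ∫ z, g z * dzb l ψ z) K := by
  have hE : K ⊆ E0 N := fun z hz => (hO hz).1
  obtain ⟨c, hc, hcK⟩ : ∃ c > 0, ∀ z ∈ K, c ≤ ρ z := by
    rcases K.eq_empty_or_nonempty with rfl | hne
    · exact ⟨1, one_pos, fun _ h => h.elim⟩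
    · obtain ⟨p, hp, h⟩ := hK.exists_isMinOn hne (hρ.smooth.continuousOn.mono hE)
      exact ⟨ρ p, (hO hp).2, fun z hz => h hz⟩
  have hg' : MemLp g 2 (volume.restrict K) := by
    have := hg K hK fun h => hE h rfl
    rwa [inter_eq_right.2 hE] at this
  have hc' : 0 < c ^ (2 * s) := Real.rpow_pos_of_pos hc _
  refine ⟨((∫ z in K, ‖g z‖ ^ 2) * (c ^ (2 * s))⁻¹).toNNReal, fun ψ hψ hsup => ?_⟩
  have hT : Tst (dzb l ψ) := ((L.fa N ψ hψ).2.2.2.2.2.1 l).2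
  have hm : MemLp (dzb l ψ) 2 (volume.restrict K) :=
    (hT.1.continuous.memLp_of_hasCompactSupport hT.2).restrict K
  have e : ∫ z, g z * dzb l ψ z = ∫ z in K, g z * dzb l ψ z :=
    (setIntegral_eq_integral_of_forall_compl_eq_zero fun z hz => by
      rw [dzb_zero l fun h => hz (hsup h), mul_zero]).symm
  have ha : 0 ≤ ∫ z in K, ‖g z‖ ^ 2 := integral_nonneg fun _ => sq_nonneg _
  simp only [e]
  refine (ENNReal.ofReal_le_ofReal (cs hg' hm)).trans ?_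
  change _ ≤ ENNReal.ofReal _ * _
  rw [ENNReal.ofReal_mul ha, ENNReal.ofReal_mul ha, mul_assoc]
  gcongr
  rw [ofReal_integral_eq_lintegral_ofReal ((memLp_two_iff_integrable_sq_norm hm.1).1 hm)
    (Eventually.of_forall fun _ => sq_nonneg _), WI,
    ← lintegral_const_mul' _ _ ENNReal.ofReal_ne_top]
  refine le_trans (setLIntegral_mono' hK.measurableSet fun z hz => ?_) (lintegral_mono_set hO)
  rw [← ENNReal.ofReal_mul (by positivity)]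
  refine ENNReal.ofReal_le_ofReal ?_
  have h1 : c ^ (2 * s) ≤ ρ z ^ (2 * s) := Real.rpow_le_rpow hc.le (hcK z hz) (by linarith)
  have h2 := pow_le_pow_left₀ (norm_nonneg _) (norm_dzb l ψ z) 2
  rw [← div_eq_inv_mul, le_div_iff₀ hc', mul_comm]
  exact mul_le_mul h1 (by nlinarith [sq_nonneg ‖ψ z‖]) (sq_nonneg _) (hc'.le.trans h1)

theorem Dv_add (L : Lv2) {X : Fin N → E N → ℂ} (hX : ∀ l, L2 (E0 N) (X l)) {f g : E N → ℂ}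
    (hf : Tst f) (hg : Tst g) (hf' : tsupport f ⊆ E0 N) (hg' : tsupport g ⊆ E0 N) :
    Dv X (fun z => f z + g z) = Dv X f + Dv X g := by
  have hi : ∀ (l : Fin N) (ψ : E N → ℂ), Tst ψ → tsupport ψ ⊆ E0 N →
      Integrable fun z => X l z * dzb l ψ z := by
    intro l ψ hψ hs
    have h1 := L.t1 N (E0 N) isOpen_compl_singleton (by simp)
    have h2 := ((h1.2.2.2.1 ψ ⟨hψ.1, hψ.2, hs⟩).2.2.1 l).2
    exact ((h1.1 _ (hX l)).2.2.1 _ h2.1.continuous h2.2.1 h2.2.2).1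
  unfold Dv
  rw [← Finset.sum_add_distrib]
  refine Finset.sum_congr rfl fun l _ => ?_
  rw [← integral_add (hi l f hf hf') (hi l g hg hg')]
  refine integral_congr_ae (Eventually.of_forall fun z => ?_)
  simp only
  rw [dzb_add l (hf.1.differentiable (by simp) z) (hg.1.differentiable (by simp) z), mul_add]

theorem cutoff {K U : Set (E N)} (hK : IsCompact K) (hU : IsOpen U) (h : K ⊆ U) :
    ∃ (χ : E N → ℂ) (K' V : Set (E N)) (B : ℝ), ContDiff ℝ ∞ χ ∧ IsCompact K' ∧ K' ⊆ U ∧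
      tsupport χ ⊆ K' ∧ IsOpen V ∧ K ⊆ V ∧ (∀ z ∈ V, χ z = 1) ∧
      ∀ z, ‖χ z‖ ≤ B ∧ ‖1 - χ z‖ ≤ B ∧ ‖fderiv ℝ χ z‖ ≤ B := by
  obtain ⟨K', hK', h1, h2⟩ := exists_compact_between hK hU h
  obtain ⟨f, hf1, hf0, -⟩ := exists_contMDiffMap_one_nhds_of_subset_interior (n := ⊤)
    𝓘(ℝ, E N) hK.isClosed h1
  obtain ⟨V, hV, hKV, hV1⟩ := mem_nhdsSet_iff_exists.1 hf1
  have hc : ContDiff ℝ ∞ fun z => (f z : ℂ) := ofRealCLM.contDiff.comp f.contMDiff.contDiff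
  have hs : tsupport (fun z => (f z : ℂ)) ⊆ K' :=
    closure_minimal (fun z hz => by
      by_contra hn
      exact hz (by simp [hf0 z hn])) hK'.isClosed
  have hcs : HasCompactSupport fun z => (f z : ℂ) := hK'.of_isClosed_subset isClosed_closure hs
  obtain ⟨B₁, hB₁⟩ := hc.continuous.bounded_above_of_compact_support hcs
  obtain ⟨B₂, hB₂⟩ := (hc.continuous_fderiv (by simp)).bounded_above_of_compact_support
    (hcs.fderiv ℝ)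
  have h3 : 0 ≤ B₁ := (norm_nonneg _).trans (hB₁ 0)
  have h4 : 0 ≤ B₂ := (norm_nonneg _).trans (hB₂ 0)
  refine ⟨_, K', V, 1 + B₁ + B₂, hc, hK', h2, hs, hV, hKV, fun z hz => ?_, fun z => ⟨?_, ?_, ?_⟩⟩
  · have : f z = 1 := hV1 hz
    simp [this]
  · linarith [hB₁ z]
  · have := norm_sub_le (1 : ℂ) (f z : ℂ)
    rw [norm_one] at this
    linarith [hB₁ z]
  · linarith [hB₂ z]

theorem union_bd (L : Lv2) {ρ : E N → ℝ} (hO : IsOpen (Op ρ)) {s : ℝ} {X : Fin N → E N → ℂ}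
    (hX : ∀ l, L2 (E0 N) (X l)) {U₁ U₂ : Set (E N)} (h₁ : IsOpen U₁) (h₂ : IsOpen U₂)
    (e₁ : U₁ ⊆ E0 N) (e₂ : U₂ ⊆ E0 N) (b₁ : ∀ K, IsCompact K → K ⊆ U₁ → Bd ρ s (Dv X) K)
    (b₂ : ∀ K, IsCompact K → K ⊆ U₂ → Bd ρ s (Dv X) K) (K : Set (E N)) (hK : IsCompact K)
    (hKU : K ⊆ U₁ ∪ U₂) : Bd ρ s (Dv X) K := by
  obtain ⟨K₁, K₂, hK₁, hK₂, s₁, s₂, rfl⟩ := hK.binary_compact_cover h₁ h₂ hKU
  obtain ⟨χ, K', V, B, hχ, hK', hU, hs, hV, hKV, h1, hB⟩ := cutoff hK₁ h₁ s₁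
  have t₁ : ∀ ψ : E N → ℂ, tsupport ψ ⊆ K₁ ∪ K₂ → tsupport (fun z => χ z * ψ z) ⊆ K' :=
    fun ψ _ => tsupport_mul_subset_left.trans hs
  have t₂ : ∀ ψ : E N → ℂ, tsupport ψ ⊆ K₁ ∪ K₂ → tsupport (fun z => (1 - χ z) * ψ z) ⊆ K₂ := by
    intro ψ hψ
    refine closure_minimal (fun z hz => ?_) hK₂.isClosed
    have h2 := mul_ne_zero_iff.1 hz
    rcases hψ (subset_tsupport ψ h2.2) with h | h
    · exact absurd (by rw [h1 z (hKV h), sub_self]) h2.1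
    · exact h
  have hχ' : ContDiff ℝ ∞ fun z => 1 - χ z := contDiff_const.sub hχ
  have c₁ := (b₁ K' hK' hU).mul hO hχ (fun z => ⟨(hB z).1, (hB z).2.2⟩) t₁
  have c₂ := (b₂ K₂ hK₂ s₂).mul hO hχ' (B := B) (fun z => ⟨(hB z).2.1, by
    rw [fderiv_const_sub, norm_neg]; exact (hB z).2.2⟩) t₂
  refine c₁.add c₂ fun ψ hψ hsup => ?_
  rw [← Dv_add L hX (tst_mul hχ hψ) (tst_mul hχ' hψ) (((t₁ ψ hsup).trans hU).trans e₁)
    (((t₂ ψ hsup).trans s₂).trans e₂)]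
  congr 1
  funext z
  ring

end HGA

open HGA in
theorem hg (L : Lv2) (h : StmtHL) : StmtHG := by
  intro N ρ hρ s hs X hX h0 K hK hK0
  have hX' : ∀ l, L2 (E0 N) (X l) := fun l => ((L.sbs N s hs.le).1 _ (hX l)).1
  obtain ⟨hOm, hOp, -⟩ := L.c1 N ρ hρ
  have key : ∃ U, IsOpen U ∧ K ⊆ U ∧ U ⊆ E0 N ∧
      ∀ K', IsCompact K' → K' ⊆ U → Bd ρ s (Dv X) K' := by
    refine hK.induction_on (p := fun S => ∃ U, IsOpen U ∧ S ⊆ U ∧ U ⊆ E0 N ∧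
      ∀ K', IsCompact K' → K' ⊆ U → Bd ρ s (Dv X) K') ?_ ?_ ?_ ?_
    · exact ⟨Om ρ, hOm, empty_subset _, fun z hz => hz.1, fun K' _ hK' =>
        Bd.zero fun ψ hψ hs => h0 ψ ⟨hψ.1, hψ.2, hs.trans hK'⟩⟩
    · rintro S T hST ⟨U, h1, h2, h3⟩
      exact ⟨U, h1, hST.trans h2, h3⟩
    · rintro S T ⟨U₁, h1, h2, h3, h4⟩ ⟨U₂, g1, g2, g3, g4⟩
      exact ⟨U₁ ∪ U₂, h1.union g1, union_subset_union h2 g2, union_subset h3 g3,
        union_bd L hOp hX' h1 g1 h3 g3 h4 g4⟩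
    · intro p hp
      have hp0 : p ≠ 0 := fun e => hK0 (e ▸ hp)
      suffices H : ∃ U, IsOpen U ∧ p ∈ U ∧ U ⊆ E0 N ∧
          ∀ K', IsCompact K' → K' ⊆ U → Bd ρ s (Dv X) K' by
        obtain ⟨U, h1, h2, h3⟩ := H
        exact ⟨U, mem_nhdsWithin_of_mem_nhds (h1.mem_nhds h2), U, h1, Subset.rfl, h3⟩
      rcases lt_trichotomy (ρ p) 0 with hl | hl | hl
      · exact ⟨Om ρ, hOm, ⟨hp0, hl⟩, fun z hz => hz.1, fun K' _ hK' =>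
          Bd.zero fun ψ hψ hs => h0 ψ ⟨hψ.1, hψ.2, hs.trans hK'⟩⟩
      · obtain ⟨r, hr, C, hC⟩ := h N ρ hρ s hs X hX h0 p hp0 hl
        exact ⟨ball p r ∩ E0 N, isOpen_ball.inter isOpen_compl_singleton,
          ⟨mem_ball_self hr, hp0⟩, inter_subset_right, fun K' _ hK' =>
            ⟨C, fun ψ hψ hs => hC ψ hψ ((hs.trans hK').trans inter_subset_left)⟩⟩
      · exact ⟨Op ρ, hOp, ⟨hp0, hl⟩, fun z hz => hz.1, fun K' h1 h2 =>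
          Bd.sum Finset.univ fun l => inner_bd L hρ hs (hX' l) l h1 h2⟩
  obtain ⟨U, -, h2, -, h4⟩ := key
  exact h4 K hK h2

end Pool.Agent.MP_fcd29e_an.H63
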