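import Pool.Agent.MP_fcd29e_an.H81.Spec

/-! Forms of top degree. -/

set_option autoImplicit false

namespace Pool.Agent.MP_fcd29e_an.H63

open Pool.Agent.MP_fcd29e_an.H81 MeasureTheory Complex Set Filter Topology Metric
open scoped ContDiff ComplexConjugate ENNReal NNReal

variable {N q : ℕ} {ι : Type} [Fintype ι]

theorem hb_comb {U : Set (E N)} {a m m' : ℤ} (h : m' = a + m) (s : ι → E N → ℂ) (F : ι → Arr N q)
    (hs : ∀ i, Hom U a 0 (s i)) (hF : ∀ i, HB U m (F i)) :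
    HB U m' fun J z => ∑ i, s i z * F i J z := by
  refine ⟨fun J c hc z hz => ?_, fun J σ z hz => ?_, fun J b z hz => ?_⟩
  · show ∑ i, s i (c • z) * F i J (c • z) = _ * ∑ i, s i z * F i J z
    rw [Finset.mul_sum]
    refine Finset.sum_congr rfl fun i _ => ?_
    rw [hs i c hc z hz, (hF i).hom J c hc z hz, h, zpow_add₀ hc, zpow_zero]
    ring
  · show ∑ i, s i z * F i (J ∘ σ) z = _ * ∑ i, s i z * F i J z
    rw [Finset.mul_sum]
    refine Finset.sum_congr rfl fun i _ => ?_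
    rw [(hF i).alt J σ z hz]
    ring
  · show ∑ l, conj (z l) * ∑ i, s i z * F i (Function.update J b l) z = 0
    simp only [Finset.mul_sum]
    rw [Finset.sum_comm]
    refine Finset.sum_eq_zero fun i _ => ?_
    have := (hF i).hor J b z hz
    calc ∑ l, conj (z l) * (s i z * F i (Function.update J b l) z)
        = s i z * ∑ l, conj (z l) * F i (Function.update J b l) z := by
          rw [Finset.mul_sum]
          exact Finset.sum_congr rfl fun l _ => by ring
      _ = 0 := by rw [this, mul_zero]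

theorem sob_comb (L : Lv1) {k : ℕ} (s F : ι → E N → ℂ) (hs : ∀ i, ContDiffOn ℝ ∞ (s i) (E0 N))
    (hF : ∀ i, Sob (E0 N) k (F i)) : Sob (E0 N) k fun z => ∑ i, s i z * F i z := by
  have h := (L.sb N).1 (E0 N) isOpen_E0 cone_E0.1 k
  exact h.2.1 ι Finset.univ (fun i z => s i z * F i z) fun i _ => (h.1 _ (hF i)).2.2.2.1 _ (hs i)

theorem l2_of_sob (L : Lv1) {k : ℕ} {U : Set (E N)} (h0 : (0 : E N) ∉ U) {f : E N → ℂ}
    (hf : Sob (E0 N) k f) : L2 U f :=
  ((L.t1 N (E0 N) isOpen_E0 cone_E0.1).1 f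
    (((L.sb N).1 (E0 N) isOpen_E0 cone_E0.1 k).1 f hf).1).2.2.2.2.2.2 U
    fun _ hz e => h0 ((mem_singleton_iff.1 e) ▸ hz)

theorem db_comb (L : Lv1) {U : Set (E N)} (hU : IsOpen U) (h0 : (0 : E N) ∉ U) (s : ι → E N → ℂ)
    (u : ι → Arr N q) (f : ι → Arr N (q + 1)) (hs : ∀ i, ContDiffOn ℝ ∞ (s i) (E0 N))
    (hh : ∀ i j z, dzb j (s i) z = 0) (hu : ∀ i J, L2 U (u i J)) (hf : ∀ i J, L2 U (f i J))
    (h : ∀ i, DB U (u i) (f i)) (g : Arr N (q + 1))
    (hg : ∀ J, ∀ z ∈ U, ∑ i, s i z * f i J z = g J z) :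
    DB U (fun J z => ∑ i, s i z * u i J z) g := by
  have F := L.frm N q U hU h0
  have T := (L.t1 N U hU h0).1
  have h1 : ∀ i, DB U (fun J z => s i z * u i J z) fun J z => s i z * f i J z := by
    intro i
    have h2 := ((F.1 _ _ (h i)).2.2.2 (hu i) (hf i)).2.1 (s i) (hs i)
    refine (F.1 _ _ h2).1 _ _ (fun J => Eventually.of_forall fun z _ => rfl)
      fun J => Eventually.of_forall fun z _ => ?_
    simp [wd, wdA, hh]
  have h2 := F.2.1 ι Finset.univ (fun i J z => s i z * u i J z) (fun i J z => s i z * f i J z)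
    fun i _ => ⟨h1 i, fun J => (T _ (hu i J)).2.2.2.2.1 _ (hs i).continuousOn,
      fun J => (T _ (hf i J)).2.2.2.2.1 _ (hs i).continuousOn⟩
  exact (F.1 _ _ h2).1 _ _ (fun J => Eventually.of_forall fun z _ => rfl)
    fun J => Eventually.of_forall fun z hz => hg J z hz

theorem nsq_ne {z : E N} (hz : z ≠ 0) : ((‖z‖ ^ 2 : ℝ) : ℂ) ≠ 0 :=
  ofReal_ne_zero.2 (pow_ne_zero 2 (norm_ne_zero_iff.2 hz))

theorem th_smooth (j : Fin N) : ContDiffOn ℝ ∞ (th j) (E0 N) := by
  intro z hz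
  refine ContDiffAt.contDiffWithinAt ?_
  have h1 : ContDiffAt ℝ ∞ (cx fun w : E N => ‖w‖ ^ 2) z :=
    contDiffAt_cx (contDiff_norm_sq ℝ).contDiffAt
  exact (contDiffAt_conj (contDiff_coord j).contDiffAt).mul (h1.inv (nsq_ne hz))

theorem th_hom (j : Fin N) : Hom (E0 N) (-1) 0 (th j) := by
  intro c hc z hz
  have h1 := nsq_ne (z := z) hz
  have h2 : conj c ≠ 0 := (map_ne_zero _).2 hc
  have h3 : ((‖c • z‖ ^ 2 : ℝ) : ℂ) = c * conj c * ((‖z‖ ^ 2 : ℝ) : ℂ) := by
    rw [norm_smul, mul_pow, Complex.mul_conj, Complex.normSq_eq_norm_sq]; push_cast; ring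
  unfold th
  rw [h3, PiLp.smul_apply, smul_eq_mul, map_mul, zpow_zero, zpow_neg_one]
  field_simp

theorem sum_th {z : E N} (hz : z ≠ 0) : ∑ l, z l * th l z = 1 := by
  have h1 := nsq_ne hz
  unfold th
  simp only [← mul_div_assoc]
  rw [← Finset.sum_div, ← norm_sq_eq, div_self h1]

theorem ft (L : Lv1) (h : StmtLT) : StmtFT := by
  intro q ρ hρ k p f hf hs
  have hO := L.c1 _ ρ hρ
  have h0 : (0 : E (q + 3)) ∉ Om ρ := hO.2.2.1.1
  have hfa : ∀ J z, z ≠ 0 → altA fun I => f I J z := fun J z hz I σ => hf.alt I J σ z hz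
  have hfh : ∀ J z, z ≠ 0 → horA (fun l => z l) fun I => f I J z :=
    fun J z hz I a => hf.hor I J a z hz
  rcases le_or_gt (q + 3) p with hp | hp
  · refine ⟨fun _ _ _ => 0, ⟨fun I => ⟨fun J c _ z _ => ?_, fun J σ z _ => ?_, fun J a z _ => ?_⟩,
      fun I J σ z _ => ?_, fun I J a z _ => ?_⟩, fun I J => ?_, fun I J ψ _ => ?_⟩
    · simp
    · simp
    · simp
    · simp
    · simp
    · exact (((L.sb _).1 (E0 _) isOpen_E0 cone_E0.1 k).2.2.1) _ contDiffOn_const
    · have : ∫ z in Om ρ, f I J z * ψ z = 0 := by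
        refine setIntegral_eq_zero_of_forall_eq_zero fun z hz => ?_
        have := ((L.al1 _ p (fun l => z l) 0).1 _).2.2.2.1 (hfa J z hz.1) (hfh J z hz.1)
          (fun e => hz.1 (PiLp.ext fun l => congrFun e l)) hp I
        rw [this, zero_mul]
      rw [this]; simp
  · let g : (Fin (p + 1) → Fin (q + 3)) → Arr (q + 3) (q + 1 + 1) := fun I J z =>
      ∑ a : Fin (p + 1), ((-1) ^ (a : ℕ) * th (I a) z) * f (a.removeNth I) J z
    have hg1 : ∀ I, HB (E0 _) (-((p + 1 : ℕ) : ℤ)) (g I) := fun I =>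
      hb_comb (a := -1) (m := -p) (by push_cast; ring)
        (fun (a : Fin (p + 1)) z => (-1) ^ (a : ℕ) * th (I a) z) _
        (fun a c hc z hz => by beta_reduce; rw [th_hom _ c hc z hz]; ring) fun a => hf.hb _
    have hg2 : ∀ I J, Sob (E0 _) k (g I J) := fun I J =>
      sob_comb L (fun (a : Fin (p + 1)) z => (-1) ^ (a : ℕ) * th (I a) z) _
        (fun a => contDiffOn_const.mul (th_smooth _)) fun a => hs _ J
    choose y hy1 hy2 hy3 using fun I =>
      h q ρ hρ k (-((p + 1 : ℕ) : ℤ)) (by omega) (by omega) (g I) (hg1 I) (hg2 I)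
    let y' : (Fin (p + 1) → Fin (q + 3)) → Arr (q + 3) (q + 1) := fun I J z =>
      ∑ σ : Equiv.Perm (Fin (p + 1)),
        ((((p + 1).factorial : ℂ))⁻¹ * (Equiv.Perm.sign σ : ℤ)) * y (I ∘ σ) J z
    have e' : ∀ (x : (Fin (p + 1) → Fin (q + 3)) → ℂ) I, ∑ σ : Equiv.Perm (Fin (p + 1)),
        ((((p + 1).factorial : ℂ))⁻¹ * (Equiv.Perm.sign σ : ℤ)) * x (I ∘ σ) = AltA x I := by
      intro x I
      unfold AltA
      rw [Finset.mul_sum]
      exact Finset.sum_congr rfl fun σ _ => mul_assoc _ _ _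
    have k1 : ∀ I, HB (E0 _) (-((p + 1 : ℕ) : ℤ)) (y' I) := fun I =>
      hb_comb (a := 0) (zero_add _).symm
        (fun (σ : Equiv.Perm (Fin (p + 1))) _ => (((p + 1).factorial : ℂ))⁻¹ * (Equiv.Perm.sign σ : ℤ)) _
        (fun a c hc z hz => by simp) fun a => hy1 _
    have k2 : ∀ I J, Sob (E0 _) k (y' I J) := fun I J =>
      sob_comb L (fun (σ : Equiv.Perm (Fin (p + 1))) _ => (((p + 1).factorial : ℂ))⁻¹ * (Equiv.Perm.sign σ : ℤ)) _
        (fun a => contDiffOn_const) fun a => hy2 _ J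
    have k3 : ∀ I, DB (Om ρ) (y' I) (g I) := fun I =>
      db_comb L hO.1 h0 (fun (σ : Equiv.Perm (Fin (p + 1))) _ => (((p + 1).factorial : ℂ))⁻¹ * (Equiv.Perm.sign σ : ℤ))
        (fun σ => y (I ∘ σ)) (fun σ => g (I ∘ σ)) (fun a => contDiffOn_const)
        (fun _ j z => dzb_const j _ z) (fun a J => l2_of_sob L h0 (hy2 _ J))
        (fun a J => l2_of_sob L h0 (hg2 _ J)) (fun a => hy3 _) (g I) fun J z hz => by
          have h1 := ((L.al1 _ p 0 fun j => th j z).1 _).1 (hfa J z hz.1)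
          have h2 := ((L.al1 _ (p + 1) 0 0).1 _).2.2.2.2.2.1 h1
          exact (e' (fun I => g I J z) I).trans (congrFun h2 I)
    have k4 : ∀ J z, altA fun I => y' I J z := fun J z => by
      have h1 := ((L.al1 _ (p + 1) 0 0).1 fun I => y I J z).2.2.2.2.1
      have h2 : (fun I => y' I J z) = AltA fun I => y I J z :=
        funext fun I => e' (fun I => y I J z) I
      rwa [h2]
    refine ⟨fun I J z => ∑ l, z l * y' (Fin.cons l I) J z, ⟨fun I => ?_, fun I J σ z _ => ?_,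
      fun I J a z _ => ?_⟩, fun I J => ?_, fun I => ?_⟩
    · exact hb_comb (a := 1) (m := -((p + 1 : ℕ) : ℤ)) (by push_cast; ring) (fun l z => z l) _
        (fun l c hc z hz => by simp) fun l => k1 _
    · exact ((L.al1 _ p (fun l => z l) 0).2 _ (k4 J z)).1 I σ
    · exact ((L.al1 _ p (fun l => z l) 0).2 _ (k4 J z)).2.1 I a
    · exact sob_comb L (fun l z => z l) _ (fun l => (contDiff_coord l).contDiffOn) fun l => k2 _ J
    · refine db_comb L hO.1 h0 (fun l z => z l) (fun l => y' (Fin.cons l I))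
        (fun l => g (Fin.cons l I)) (fun l => (contDiff_coord l).contDiffOn)
        (fun l j z => dzb_coord j l z) (fun l J => l2_of_sob L h0 (k2 _ J))
        (fun l J => l2_of_sob L h0 (hg2 _ J)) (fun l => k3 _) (f I) fun J z hz => ?_
      have h1 := ((L.al1 _ p (fun l => z l) fun j => th j z).1 _).2.1 (hfh J z hz.1) I
      rw [sum_th hz.1, one_mul] at h1
      exact h1

end Pool.Agent.MP_fcd29e_an.H63
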